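import Mathlib
import Pool.Agent.H98.Cubic.Targets

/-!
Cubic moment of Hardy's function (`MP_56c76e_nt`): module SP (stationary phase for
`v log v - v`), deduced from the incomplete Fresnel integrals `TFres`.
-/

set_option autoImplicit false

open Finset

namespace Pool.Agent.H7.Cubic

open Pool.Agent.H98.Cubic

namespace SP

lemma norm_ei (x : ℝ) : ‖ei x‖ = 1 := by
  unfold ei; exact Complex.norm_exp_ofReal_mul_I x

lemma ei_add (x y : ℝ) : ei (x + y) = ei x * ei y := by
  unfold ei; rw [← Complex.exp_add]; congr 1; push_cast; ring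

lemma hasDerivAt_ei_comp {g : ℝ → ℝ} {g' v : ℝ} (h : HasDerivAt g g' v) :
    HasDerivAt (fun v => ei (g v)) ((g' : ℂ) * Complex.I * ei (g v)) v := by
  have h1 := ((h.ofReal_comp).mul_const Complex.I).cexp
  unfold ei
  convert h1 using 1
  ring

lemma continuous_ei : Continuous ei := by
  unfold ei; fun_prop

/-- `v log v - v`. -/
noncomputable def ph (v : ℝ) : ℝ := v * Real.log v - v

/-- `s² = 2 (v log v - v + 1)`. -/
noncomputable def q (v : ℝ) : ℝ := 2 * (v * Real.log v - v + 1)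

/-- `s²` in terms of `w = log v`. -/
noncomputable def K (w : ℝ) : ℝ := 2 * (1 - Real.exp w * (1 - w))

lemma q_eq_K {v : ℝ} (hv : 0 < v) : q v = K (Real.log v) := by
  unfold q K; rw [Real.exp_log hv]; ring

lemma hasDerivAt_ph {v : ℝ} (hv : 0 < v) : HasDerivAt ph (Real.log v) v := by
  have h : HasDerivAt ph (1 * Real.log v + v * v⁻¹ - 1) v :=
    ((hasDerivAt_id v).mul (Real.hasDerivAt_log hv.ne')).sub (hasDerivAt_id v)
  convert h using 1
  field_simp
  ring

lemma hasDerivAt_q {v : ℝ} (hv : 0 < v) : HasDerivAt q (2 * Real.log v) v := by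
  have h := ((hasDerivAt_ph hv).add_const 1).const_mul 2
  exact h

lemma hasDerivAt_K (w : ℝ) : HasDerivAt K (2 * w * Real.exp w) w := by
  have h : HasDerivAt K (2 * (-(Real.exp w * (1 - w) + Real.exp w * (-1)))) w :=
    (((Real.hasDerivAt_exp w).mul ((hasDerivAt_id w).const_sub 1)).const_sub 1).const_mul 2
  convert h using 1
  ring

/-- `H(w) = K(w) - w² e^{2w/3}`. -/
noncomputable def H (w : ℝ) : ℝ := K w - w ^ 2 * Real.exp (2 * w / 3)

lemma hasDerivAt_H (w : ℝ) :
    HasDerivAt H (2 * w * Real.exp (2 * w / 3) * (Real.exp (w / 3) - 1 - w / 3)) w := by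
  have h1 : HasDerivAt (fun w : ℝ => Real.exp (2 * w / 3)) (Real.exp (2 * w / 3) * (2 / 3)) w := by
    have : HasDerivAt (fun w : ℝ => 2 * w / 3) (2 / 3) w := by
      have := ((hasDerivAt_id w).const_mul 2).div_const 3
      simpa using this
    exact this.exp
  have h3 : HasDerivAt (fun w : ℝ => w ^ 2) (2 * w) w := by
    simpa using hasDerivAt_pow 2 w
  have h2 : HasDerivAt H (2 * w * Real.exp w - (2 * w * Real.exp (2 * w / 3) +
      w ^ 2 * (Real.exp (2 * w / 3) * (2 / 3)))) w := (hasDerivAt_K w).sub (h3.mul h1)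
  convert h2 using 1
  have : Real.exp w = Real.exp (2 * w / 3) * Real.exp (w / 3) := by
    rw [← Real.exp_add]; congr 1; ring
  rw [this]
  ring

lemma H_zero : H 0 = 0 := by simp [H, K]

lemma H_nonneg (w : ℝ) : 0 ≤ H w := by
  rcases le_total 0 w with hw | hw
  · have hm : MonotoneOn H (Set.Ici 0) := by
      apply monotoneOn_of_deriv_nonneg (convex_Ici 0)
      · exact fun x _ => (hasDerivAt_H x).continuousAt.continuousWithinAt
      · exact fun x _ => (hasDerivAt_H x).differentiableAt.differentiableWithinAt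
      · intro x hx
        rw [interior_Ici] at hx
        rw [(hasDerivAt_H x).deriv]
        have h1 : 0 ≤ Real.exp (x / 3) - 1 - x / 3 := by
          have := Real.add_one_le_exp (x / 3)
          linarith
        have h2 : 0 < x := hx
        positivity
    have := hm (Set.mem_Ici.2 le_rfl) (Set.mem_Ici.2 hw) hw
    rwa [H_zero] at this
  · have hm : AntitoneOn H (Set.Iic 0) := by
      apply antitoneOn_of_deriv_nonpos (convex_Iic 0)
      · exact fun x _ => (hasDerivAt_H x).continuousAt.continuousWithinAt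
      · exact fun x _ => (hasDerivAt_H x).differentiableAt.differentiableWithinAt
      · intro x hx
        rw [interior_Iic] at hx
        rw [(hasDerivAt_H x).deriv]
        have h1 : 0 ≤ Real.exp (x / 3) - 1 - x / 3 := by
          have := Real.add_one_le_exp (x / 3)
          linarith
        have h2 : x < 0 := hx
        have h3 : 2 * x * Real.exp (2 * x / 3) ≤ 0 := by
          have := Real.exp_pos (2 * x / 3)
          nlinarith
        exact mul_nonpos_of_nonpos_of_nonneg h3 h1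
    have := hm (Set.mem_Iic.2 hw) (Set.mem_Iic.2 le_rfl) hw
    rwa [H_zero] at this

lemma K_ge (w : ℝ) : w ^ 2 * Real.exp (2 * w / 3) ≤ K w := by
  have := H_nonneg w
  unfold H at this
  linarith

lemma K_ge_sq {w : ℝ} (hw : 0 ≤ w) : w ^ 2 ≤ K w := by
  have h1 := K_ge w
  have h2 : 1 ≤ Real.exp (2 * w / 3) := Real.one_le_exp (by positivity)
  nlinarith [sq_nonneg w]

lemma K_pos {w : ℝ} (hw : w ≠ 0) : 0 < K w := by
  have h1 := K_ge w
  have h2 := Real.exp_pos (2 * w / 3)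
  have h3 : 0 < w ^ 2 := by positivity
  nlinarith [mul_pos h3 h2]

lemma K_nonneg (w : ℝ) : 0 ≤ K w := by
  have h1 := K_ge w
  have h2 := Real.exp_pos (2 * w / 3)
  nlinarith [sq_nonneg w]

/-- for `w ≤ 0` one has `K w ≤ w²`. -/
lemma K_le_sq {w : ℝ} (hw : w ≤ 0) : K w ≤ w ^ 2 := by
  have hd : ∀ x : ℝ, HasDerivAt (fun x => K x - x ^ 2) (2 * x * (Real.exp x - 1)) x := by
    intro x
    have h3 : HasDerivAt (fun w : ℝ => w ^ 2) (2 * x) x := by
      simpa using hasDerivAt_pow 2 x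
    have h := (hasDerivAt_K x).sub h3
    refine h.congr_deriv ?_
    ring
  have hm : MonotoneOn (fun x => K x - x ^ 2) (Set.Iic 0) := by
    apply monotoneOn_of_deriv_nonneg (convex_Iic 0)
    · exact fun x _ => (hd x).continuousAt.continuousWithinAt
    · exact fun x _ => (hd x).differentiableAt.differentiableWithinAt
    · intro x hx
      rw [interior_Iic] at hx
      rw [(hd x).deriv]
      have h2 : x < 0 := hx
      have h3 : Real.exp x ≤ 1 := Real.exp_le_one_iff.2 h2.le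
      nlinarith
  have := hm (Set.mem_Iic.2 hw) (Set.mem_Iic.2 le_rfl) hw
  simp [K] at this
  unfold K
  linarith

/-- for `w ≤ 0`: `w² ≤ (1 + |w|)² K w`. -/
lemma K_ge_div {w : ℝ} (hw : w ≤ 0) : w ^ 2 ≤ (1 - w) ^ 2 * K w := by
  set x := -w with hx
  have hx0 : 0 ≤ x := by linarith
  have hw' : w = -x := by linarith
  have h1 := Real.quadratic_le_exp_of_nonneg hx0
  have h2 : Real.exp w * Real.exp x = 1 := by rw [← Real.exp_add, hw']; simp
  have h3 := Real.exp_pos w
  unfold K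
  rw [hw']
  rw [hw'] at h2 h3
  -- exp(-x) (1 + x + x²/2) ≤ 1
  have h4 : Real.exp (-x) * (1 + x + x ^ 2 / 2) ≤ 1 := by
    calc Real.exp (-x) * (1 + x + x ^ 2 / 2) ≤ Real.exp (-x) * Real.exp x :=
          mul_le_mul_of_nonneg_left h1 h3.le
      _ = 1 := h2
  -- 1 - e(1+x) ≥ e x²/2,  want x² ≤ (1+x)² 2 (1 - e (1+x))
  set e := Real.exp (-x) with he
  -- (1 + x + x²/2) (1 - e (1 + x)) ≥ (1 + x + x²/2) - (1+x) = x²/2
  have h5 : x ^ 2 / 2 ≤ (1 + x + x ^ 2 / 2) * (1 - e * (1 + x)) := by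
    have : (1 + x + x ^ 2 / 2) * (1 - e * (1 + x)) =
      (1 + x + x ^ 2 / 2) - (e * (1 + x + x ^ 2 / 2)) * (1 + x) := by ring
    rw [this]
    nlinarith
  have h6 : 0 ≤ 1 - e * (1 + x) := by
    nlinarith [sq_nonneg x]
  have h7 : (1 + x + x ^ 2 / 2) ≤ (1 + x) ^ 2 := by nlinarith
  have h8 := mul_le_mul_of_nonneg_right h7 h6
  have : (1 - -x) ^ 2 * (2 * (1 - e * (1 - -x))) = 2 * ((1 + x) ^ 2 * (1 - e * (1 + x))) := by ring
  rw [this]
  nlinarith

/-- for `0 ≤ w < 1`: `(1 - w)² K w ≤ w²`. -/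
lemma K_le_div {w : ℝ} (hw : 0 ≤ w) (hw1 : w < 1) : (1 - w) ^ 2 * K w ≤ w ^ 2 := by
  have h1 := Real.quadratic_le_exp_of_nonneg hw
  unfold K
  have h2 : 1 - Real.exp w * (1 - w) ≤ 1 - (1 + w + w ^ 2 / 2) * (1 - w) := by
    nlinarith
  have h3 : (1 - w) ^ 2 * (2 * (1 - Real.exp w * (1 - w))) ≤
      (1 - w) ^ 2 * (2 * (1 - (1 + w + w ^ 2 / 2) * (1 - w))) := by
    apply mul_le_mul_of_nonneg_left _ (sq_nonneg _)
    linarith
  refine h3.trans ?_
  have : (1 - w) ^ 2 * (2 * (1 - (1 + w + w ^ 2 / 2) * (1 - w))) =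
    w ^ 2 * ((1 - w ^ 2) * (1 - w)) := by ring
  rw [this]
  have h4 : (1 - w ^ 2) * (1 - w) ≤ 1 := by
    have : 0 ≤ 1 - w := by linarith
    nlinarith [sq_nonneg w, mul_nonneg (sq_nonneg w) this]
  nlinarith [sq_nonneg w]

/-- the new variable `s(v)`. -/
noncomputable def sv (v : ℝ) : ℝ := if v ≤ 1 then -Real.sqrt (q v) else Real.sqrt (q v)

lemma q_pos {v : ℝ} (hv : 0 < v) (h1 : v ≠ 1) : 0 < q v := by
  rw [q_eq_K hv]
  apply K_pos
  exact Real.log_ne_zero_of_pos_of_ne_one hv h1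

lemma q_nonneg {v : ℝ} (hv : 0 < v) : 0 ≤ q v := by
  rw [q_eq_K hv]; exact K_nonneg _

lemma sv_sq {v : ℝ} (hv : 0 < v) : sv v ^ 2 = q v := by
  unfold sv
  split_ifs
  · rw [neg_sq, Real.sq_sqrt (q_nonneg hv)]
  · rw [Real.sq_sqrt (q_nonneg hv)]

lemma sv_pos {v : ℝ} (hv : 1 < v) : 0 < sv v := by
  unfold sv
  rw [if_neg (not_le.2 hv)]
  exact Real.sqrt_pos.2 (q_pos (by linarith) hv.ne')

lemma sv_neg {v : ℝ} (h0 : 0 < v) (hv : v < 1) : sv v < 0 := by
  unfold sv
  rw [if_pos hv.le]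
  have := Real.sqrt_pos.2 (q_pos h0 hv.ne)
  linarith

lemma sv_ne {v : ℝ} (h0 : 0 < v) (hv : v ≠ 1) : sv v ≠ 0 := by
  rcases lt_or_gt_of_ne hv with h | h
  · exact (sv_neg h0 h).ne
  · exact (sv_pos h).ne'

lemma sv_one : sv 1 = 0 := by
  unfold sv q; simp

lemma abs_sv {v : ℝ} : |sv v| = Real.sqrt (q v) := by
  unfold sv
  split_ifs
  · rw [abs_neg, abs_of_nonneg (Real.sqrt_nonneg _)]
  · rw [abs_of_nonneg (Real.sqrt_nonneg _)]

lemma hasDerivAt_sv {v : ℝ} (hv : 0 < v) (h1 : v ≠ 1) :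
    HasDerivAt sv (Real.log v / sv v) v := by
  have hq := q_pos hv h1
  have hd := (hasDerivAt_q hv).sqrt hq.ne'
  have hs := Real.sqrt_pos.2 hq
  rcases lt_or_gt_of_ne h1 with h | h
  · have he : (fun v => -Real.sqrt (q v)) =ᶠ[nhds v] sv := by
      filter_upwards [Iio_mem_nhds h] with x hx
      have hx' : x < 1 := hx
      simp only [sv]
      rw [if_pos hx'.le]
    have := (hd.fun_neg).congr_of_eventuallyEq he.symm
    refine this.congr_deriv ?_
    unfold sv
    rw [if_pos h.le]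
    field_simp
  · have he : (fun v => Real.sqrt (q v)) =ᶠ[nhds v] sv := by
      filter_upwards [Ioi_mem_nhds h] with x hx
      have hx' : 1 < x := hx
      simp only [sv]
      rw [if_neg (not_le.2 hx')]
    have := hd.congr_of_eventuallyEq he.symm
    refine this.congr_deriv ?_
    unfold sv
    rw [if_neg (not_le.2 h)]
    field_simp

/-- `|s(v)| ≤ 2 |v - 1|`. -/
lemma abs_sv_le {v : ℝ} (hv : 0 < v) : |sv v| ≤ 2 * |v - 1| := by
  rw [abs_sv]
  have h1 : q v ≤ (2 * |v - 1|) ^ 2 := by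
    unfold q
    have h2 := Real.log_le_sub_one_of_pos hv
    rw [mul_pow, sq_abs]
    nlinarith [sq_nonneg (v - 1)]
  calc Real.sqrt (q v) ≤ Real.sqrt ((2 * |v - 1|) ^ 2) := Real.sqrt_le_sqrt h1
    _ = 2 * |v - 1| := Real.sqrt_sq (by positivity)

/-- `R(v) = 1/log v - 1/s(v)`. -/
noncomputable def R (v : ℝ) : ℝ := (Real.log v)⁻¹ - (sv v)⁻¹

noncomputable def R' (v : ℝ) : ℝ := -(v⁻¹) / (Real.log v) ^ 2 - -(Real.log v / sv v) / (sv v) ^ 2

lemma hasDerivAt_R {v : ℝ} (hv : 0 < v) (h1 : v ≠ 1) : HasDerivAt R (R' v) v := by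
  have hl : Real.log v ≠ 0 := Real.log_ne_zero_of_pos_of_ne_one hv h1
  exact ((Real.hasDerivAt_log hv.ne').fun_inv hl).sub ((hasDerivAt_sv hv h1).fun_inv (sv_ne hv h1))

/-- `v |log v|³ ≤ |s|³` -/
lemma sv_cube {v : ℝ} (hv : 0 < v) : v * |Real.log v| ^ 3 ≤ |sv v| ^ 3 := by
  have h1 : |Real.log v| * Real.exp (Real.log v / 3) ≤ |sv v| := by
    rw [abs_sv, q_eq_K hv]
    apply Real.le_sqrt_of_sq_le
    have := K_ge (Real.log v)
    have h2 : (|Real.log v| * Real.exp (Real.log v / 3)) ^ 2 =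
      Real.log v ^ 2 * Real.exp (2 * Real.log v / 3) := by
      rw [mul_pow, sq_abs, ← Real.exp_nat_mul]
      congr 2
      push_cast
      ring
    rw [h2]
    exact this
  have h3 := pow_le_pow_left₀ (by positivity) h1 3
  rw [mul_pow, ← Real.exp_nat_mul] at h3
  have h4 : Real.exp (((3 : ℕ) : ℝ) * (Real.log v / 3)) = v := by
    have : ((3 : ℕ) : ℝ) * (Real.log v / 3) = Real.log v := by push_cast; ring
    rw [this, Real.exp_log hv]
  rw [h4] at h3
  linarith

lemma R'_nonpos {v : ℝ} (hv : 0 < v) (h1 : v ≠ 1) : R' v ≤ 0 := by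
  have hc := sv_cube hv
  unfold R'
  have hl : Real.log v ≠ 0 := Real.log_ne_zero_of_pos_of_ne_one hv h1
  have e1 : -(v⁻¹) / (Real.log v) ^ 2 - -(Real.log v / sv v) / (sv v) ^ 2 =
      Real.log v / (sv v) ^ 3 - 1 / (v * (Real.log v) ^ 2) := by
    have := sv_ne hv h1
    field_simp
    ring
  rw [e1, sub_nonpos]
  have e2 : Real.log v / (sv v) ^ 3 = |Real.log v| / |sv v| ^ 3 := by
    rcases lt_or_gt_of_ne h1 with h | h
    · have a1 := sv_neg hv h
      have a2 := Real.log_neg hv h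
      rw [abs_of_neg a1, abs_of_neg a2]
      have : (-sv v) ^ 3 = -(sv v) ^ 3 := by ring
      rw [this, neg_div_neg_eq]
    · have a1 := sv_pos h
      have a2 := Real.log_pos h
      rw [abs_of_pos a1, abs_of_pos a2]
  rw [e2]
  have a3 : 0 < |sv v| := abs_pos.2 (sv_ne hv h1)
  have a4 : 0 < |Real.log v| := abs_pos.2 hl
  rw [div_le_div_iff₀ (by positivity) (by positivity), ← sq_abs (Real.log v)]
  calc |Real.log v| * (v * |Real.log v| ^ 2) = v * |Real.log v| ^ 3 := by ring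
    _ ≤ |sv v| ^ 3 := hc
    _ = 1 * |sv v| ^ 3 := by ring

lemma R_nonneg {v : ℝ} (hv : 0 < v) (h1 : v ≠ 1) : 0 ≤ R v := by
  unfold R
  rcases lt_or_gt_of_ne h1 with h | h
  · have a1 := sv_neg hv h
    have a2 := Real.log_neg hv h
    have a3 : |sv v| ≤ |Real.log v| := by
      rw [abs_sv, q_eq_K hv, ← Real.sqrt_sq_eq_abs]
      exact Real.sqrt_le_sqrt (K_le_sq a2.le)
    rw [abs_of_neg a1, abs_of_neg a2] at a3
    have a4 : (sv v)⁻¹ ≤ (Real.log v)⁻¹ := by
      rw [← neg_le_neg_iff, ← inv_neg, ← inv_neg]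
      exact inv_anti₀ (by linarith) a3
    linarith
  · have a1 := sv_pos h
    have a2 := Real.log_pos h
    have a3 : |Real.log v| ≤ |sv v| := by
      rw [abs_sv, q_eq_K hv, ← Real.sqrt_sq_eq_abs]
      exact Real.sqrt_le_sqrt (K_ge_sq a2.le)
    rw [abs_of_pos a1, abs_of_pos a2] at a3
    have a4 : (sv v)⁻¹ ≤ (Real.log v)⁻¹ := inv_anti₀ a2 a3
    linarith

lemma R_le_one {v : ℝ} (hv : 0 < v) (h1 : v ≠ 1) : R v ≤ 1 := by
  unfold R
  rcases lt_or_gt_of_ne h1 with h | h
  · have a1 := sv_neg hv h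
    have a2 := Real.log_neg hv h
    -- 1/|s| ≤ 1 + 1/|w|
    have a3 : -Real.log v ≤ (1 - Real.log v) * (-sv v) := by
      have b := K_ge_div a2.le
      rw [← q_eq_K hv, ← sv_sq hv, ← mul_pow, ← neg_sq (Real.log v),
        ← neg_sq ((1 - Real.log v) * sv v)] at b
      have := sq_le_sq.1 b
      rw [abs_of_pos (by linarith), abs_of_pos (by nlinarith)] at this
      linarith
    have hl : 0 < -Real.log v := by linarith
    have hs : 0 < -sv v := by linarith
    have a5 : (Real.log v)⁻¹ - (sv v)⁻¹ = (-sv v)⁻¹ - (-Real.log v)⁻¹ := by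
      rw [inv_neg, inv_neg]; ring
    rw [a5, sub_le_iff_le_add]
    have : (1 : ℝ) + (-Real.log v)⁻¹ = (1 - Real.log v) / (-Real.log v) := by
      rw [eq_div_iff hl.ne', add_mul, inv_mul_cancel₀ hl.ne']
      ring
    rw [this, inv_eq_one_div, div_le_div_iff₀ hs hl]
    linarith
  · have a1 := sv_pos h
    have a2 := Real.log_pos h
    rcases le_or_gt 1 (Real.log v) with h2 | h2
    · have : (Real.log v)⁻¹ ≤ 1 := inv_le_one_of_one_le₀ h2
      have : 0 < (sv v)⁻¹ := inv_pos.2 a1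
      linarith
    · have b := K_le_div a2.le h2
      rw [← q_eq_K hv, ← sv_sq hv, ← mul_pow] at b
      have := sq_le_sq.1 b
      rw [abs_of_pos (by nlinarith), abs_of_pos a2] at this
      -- (1 - w) s ≤ w : 1/w ≤ 1 + 1/s
      rw [sub_le_iff_le_add]
      have e : (1 : ℝ) + (sv v)⁻¹ = (sv v + 1) / sv v := by field_simp
      rw [e, inv_eq_one_div, div_le_div_iff₀ a2 a1]
      nlinarith

lemma ei_ne_zero (x : ℝ) : ei x ≠ 0 := by
  intro h
  have := norm_ei x
  rw [h, norm_zero] at this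
  exact zero_ne_one this

/-- `E(x) = ∫₀ˣ exp (i ω r² / 2) dr`. -/
noncomputable def E (ω x : ℝ) : ℂ := ∫ r in (0 : ℝ)..x, ei (ω * r ^ 2 / 2)

lemma cont_E_int (ω : ℝ) : Continuous (fun r : ℝ => ei (ω * r ^ 2 / 2)) :=
  continuous_ei.comp (by fun_prop)

lemma hasDerivAt_E (ω x : ℝ) : HasDerivAt (E ω) (ei (ω * x ^ 2 / 2)) x :=
  intervalIntegral.integral_hasDerivAt_right ((cont_E_int ω).intervalIntegrable _ _)
    ((cont_E_int ω).stronglyMeasurableAtFilter _ _) (cont_E_int ω).continuousAt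

lemma E_sub (ω a b : ℝ) : E ω b - E ω a = ∫ r in a..b, ei (ω * r ^ 2 / 2) := by
  unfold E
  rw [intervalIntegral.integral_interval_sub_left] <;>
  exact (cont_E_int ω).intervalIntegrable _ _

/-- the primitive used in the comparison -/
noncomputable def F (ω v : ℝ) : ℂ :=
  ei (-ω) * E ω (sv v) + ((R v : ℝ) : ℂ) * ((1 / (Complex.I * ω)) * ei (ω * ph v))

lemma hasDerivAt_F {ω v : ℝ} (hω : 0 < ω) (hv : 0 < v) (h1 : v ≠ 1) :
    HasDerivAt (F ω) (ei (ω * ph v) + ((R' v : ℝ) : ℂ) * ((1 / (Complex.I * ω)) * ei (ω * ph v)))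
      v := by
  have d1 : HasDerivAt (fun v => E ω (sv v))
      ((Real.log v / sv v : ℝ) • ei (ω * (sv v) ^ 2 / 2)) v :=
    (hasDerivAt_E ω (sv v)).scomp v (hasDerivAt_sv hv h1)
  have d2 := d1.const_mul (ei (-ω))
  have d3 := hasDerivAt_ei_comp ((hasDerivAt_ph hv).const_mul ω)
  have d4 := d3.const_mul (1 / (Complex.I * (ω : ℂ)))
  have d5 := ((hasDerivAt_R hv h1).ofReal_comp).mul d4
  have d6 := d2.add d5
  refine d6.congr_deriv ?_
  have e1 : ω * (sv v) ^ 2 / 2 = ω * ph v + ω := by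
    rw [sv_sq hv]; unfold q ph; ring
  have e2 : ei (-ω) * ei (ω * ph v + ω) = ei (ω * ph v) := by
    rw [← ei_add]; congr 1; ring
  rw [e1, Complex.real_smul, mul_left_comm, e2]
  have hs := sv_ne hv h1
  have hl : Real.log v ≠ 0 := Real.log_ne_zero_of_pos_of_ne_one hv h1
  have hωc : (ω : ℂ) ≠ 0 := by exact_mod_cast hω.ne'
  have e3 : (1 / (Complex.I * (ω : ℂ))) * (((ω * Real.log v : ℝ) : ℂ) * Complex.I *
      ei (ω * ph v)) = ((Real.log v : ℝ) : ℂ) * ei (ω * ph v) := by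
    push_cast
    field_simp
  have e4 : ((Real.log v / sv v : ℝ) : ℂ) + ((R v : ℝ) : ℂ) * ((Real.log v : ℝ) : ℂ) = 1 := by
    rw [← Complex.ofReal_mul, ← Complex.ofReal_add, ← Complex.ofReal_one]
    congr 1
    unfold R
    field_simp
    ring
  simp only [e3]
  linear_combination (ei (ω * ph v)) * e4

lemma piece {ω a b : ℝ} (hω : 0 < ω) (ha : 0 < a) (hab : a ≤ b) (h1 : b < 1 ∨ 1 < a) :
    ‖(∫ v in a..b, ei (ω * ph v)) - ei (-ω) * ∫ r in (sv a)..(sv b), ei (ω * r ^ 2 / 2)‖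
      ≤ 2 / ω := by
  have hne : ∀ x ∈ Set.uIcc a b, 0 < x ∧ x ≠ 1 := by
    intro x hx
    rw [Set.uIcc_of_le hab] at hx
    refine ⟨lt_of_lt_of_le ha hx.1, ?_⟩
    rcases h1 with h | h
    · exact (lt_of_le_of_lt hx.2 h).ne
    · exact (lt_of_lt_of_le h hx.1).ne'
  have hne' : ∀ x ∈ Set.uIcc a b, x ≠ 0 := fun x hx => (hne x hx).1.ne'
  have cph : ContinuousOn ph (Set.uIcc a b) := fun x hx =>
    (hasDerivAt_ph (hne x hx).1).continuousAt.continuousWithinAt
  have clog : ContinuousOn Real.log (Set.uIcc a b) := fun x hx =>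
    (Real.hasDerivAt_log (hne' x hx)).continuousAt.continuousWithinAt
  have csv : ContinuousOn sv (Set.uIcc a b) := fun x hx =>
    (hasDerivAt_sv (hne x hx).1 (hne x hx).2).continuousAt.continuousWithinAt
  have cR' : ContinuousOn R' (Set.uIcc a b) := by
    have hs : ∀ x ∈ Set.uIcc a b, sv x ≠ 0 := fun x hx => sv_ne (hne x hx).1 (hne x hx).2
    have hl : ∀ x ∈ Set.uIcc a b, Real.log x ≠ 0 := fun x hx =>
      Real.log_ne_zero_of_pos_of_ne_one (hne x hx).1 (hne x hx).2
    unfold R'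
    refine ((continuousOn_id.inv₀ hne').neg.div (clog.pow 2) ?_).sub
      (((clog.div csv hs).neg).div (csv.pow 2) ?_)
    · intro x hx; exact pow_ne_zero _ (hl x hx)
    · intro x hx; exact pow_ne_zero _ (hs x hx)
  have ce : ContinuousOn (fun v => ei (ω * ph v)) (Set.uIcc a b) :=
    continuous_ei.comp_continuousOn (continuousOn_const.mul cph)
  have cR'c : ContinuousOn (fun v => ((R' v : ℝ) : ℂ)) (Set.uIcc a b) :=
    Complex.continuous_ofReal.comp_continuousOn cR'
  have ce2 : ContinuousOn (fun v => ((R' v : ℝ) : ℂ) *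
      ((1 / (Complex.I * ω)) * ei (ω * ph v))) (Set.uIcc a b) :=
    cR'c.mul (continuousOn_const.mul ce)
  have hF : ∫ v in a..b, (ei (ω * ph v) +
      ((R' v : ℝ) : ℂ) * ((1 / (Complex.I * ω)) * ei (ω * ph v))) = F ω b - F ω a :=
    intervalIntegral.integral_eq_sub_of_hasDerivAt
      (fun x hx => hasDerivAt_F hω (hne x hx).1 (hne x hx).2)
      ((ce.add ce2).intervalIntegrable)
  rw [intervalIntegral.integral_add ce.intervalIntegrable ce2.intervalIntegrable] at hF
  have e1 : (∫ v in a..b, ei (ω * ph v)) - ei (-ω) * ∫ r in (sv a)..(sv b), ei (ω * r ^ 2 / 2) =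
      ((R b : ℝ) : ℂ) * ((1 / (Complex.I * ω)) * ei (ω * ph b)) -
      ((R a : ℝ) : ℂ) * ((1 / (Complex.I * ω)) * ei (ω * ph a)) -
      ∫ v in a..b, ((R' v : ℝ) : ℂ) * ((1 / (Complex.I * ω)) * ei (ω * ph v)) := by
    rw [← E_sub]
    unfold F at hF
    linear_combination hF
  rw [e1]
  have n1 : ∀ x : ℝ, ‖(1 / (Complex.I * (ω : ℂ))) * ei (ω * ph x)‖ = 1 / ω := by
    intro x
    rw [norm_mul, norm_ei, norm_div, norm_mul, Complex.norm_I, Complex.norm_real,
      Real.norm_of_nonneg hω.le]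
    simp
  have hRa : 0 ≤ R a := R_nonneg ha (hne a Set.left_mem_uIcc).2
  have hRb : 0 ≤ R b := R_nonneg (hne b Set.right_mem_uIcc).1 (hne b Set.right_mem_uIcc).2
  have hRa1 : R a ≤ 1 := R_le_one ha (hne a Set.left_mem_uIcc).2
  have b1 : ‖((R b : ℝ) : ℂ) * ((1 / (Complex.I * ω)) * ei (ω * ph b))‖ = R b / ω := by
    rw [norm_mul, n1, Complex.norm_real, Real.norm_of_nonneg hRb]; ring
  have b2 : ‖((R a : ℝ) : ℂ) * ((1 / (Complex.I * ω)) * ei (ω * ph a))‖ = R a / ω := by
    rw [norm_mul, n1, Complex.norm_real, Real.norm_of_nonneg hRa]; ring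
  have b3 : ‖∫ v in a..b, ((R' v : ℝ) : ℂ) * ((1 / (Complex.I * ω)) * ei (ω * ph v))‖ ≤
      (R a - R b) / ω := by
    have i1 : IntervalIntegrable (fun v => -R' v / ω) MeasureTheory.volume a b :=
      (cR'.neg.div_const ω).intervalIntegrable
    have i2 := intervalIntegral.norm_integral_le_of_norm_le (μ := MeasureTheory.volume)
      (f := fun v => ((R' v : ℝ) : ℂ) * ((1 / (Complex.I * ω)) * ei (ω * ph v))) hab
      (g := fun v => -R' v / ω) (by
        refine Filter.Eventually.of_forall ?_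
        intro x hx
        have hx' : x ∈ Set.uIcc a b := by
          rw [Set.uIcc_of_le hab]; exact Set.Ioc_subset_Icc_self hx
        rw [norm_mul, n1, Complex.norm_real, Real.norm_of_nonpos
          (R'_nonpos (hne x hx').1 (hne x hx').2)]
        apply le_of_eq
        ring) i1
    refine i2.trans (le_of_eq ?_)
    have i3 : ∫ v in a..b, R' v = R b - R a :=
      intervalIntegral.integral_eq_sub_of_hasDerivAt
        (fun x hx => hasDerivAt_R (hne x hx).1 (hne x hx).2) cR'.intervalIntegrable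
    have i4 : ∀ v : ℝ, -R' v / ω = (-1 / ω) * R' v := by intro v; ring
    simp only [i4]
    rw [intervalIntegral.integral_const_mul, i3]
    ring
  have hsum := norm_sub_le
    (((R b : ℝ) : ℂ) * ((1 / (Complex.I * ω)) * ei (ω * ph b)) -
      ((R a : ℝ) : ℂ) * ((1 / (Complex.I * ω)) * ei (ω * ph a)))
    (∫ v in a..b, ((R' v : ℝ) : ℂ) * ((1 / (Complex.I * ω)) * ei (ω * ph v)))
  have hsum2 := norm_sub_le
    (((R b : ℝ) : ℂ) * ((1 / (Complex.I * ω)) * ei (ω * ph b)))
      (((R a : ℝ) : ℂ) * ((1 / (Complex.I * ω)) * ei (ω * ph a)))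
  have : R b / ω + R a / ω + (R a - R b) / ω = 2 * R a / ω := by ring
  have h2 : 2 * R a / ω ≤ 2 / ω := by
    apply div_le_div_of_nonneg_right _ hω.le
    linarith
  linarith [hsum, hsum2, b1, b2, b3]

/-- comparison on an arbitrary interval -/
lemma piece_all {ω a b : ℝ} (hω : 0 < ω) (ha : 0 < a) (hab : a ≤ b) :
    ‖(∫ v in a..b, ei (ω * ph v)) - ei (-ω) * ∫ r in (sv a)..(sv b), ei (ω * r ^ 2 / 2)‖
      ≤ 4 / ω := by
  have h24 : 2 / ω ≤ 4 / ω := div_le_div_of_nonneg_right (by norm_num) hω.le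
  have h4 : 2 / ω + 2 / ω = 4 / ω := by ring
  have h2 : 0 ≤ 2 / ω := by positivity
  have cint : ∀ x y : ℝ, 0 < x → 0 < y → IntervalIntegrable (fun v => ei (ω * ph v))
      MeasureTheory.volume x y := by
    intro x y hx hy
    apply ContinuousOn.intervalIntegrable
    refine continuous_ei.comp_continuousOn (continuousOn_const.mul ?_)
    intro z hz
    have hz0 : 0 < z := by
      rcases le_total x y with h | h
      · rw [Set.uIcc_of_le h] at hz; linarith [hz.1]
      · rw [Set.uIcc_of_ge h] at hz; linarith [hz.1]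
    exact (hasDerivAt_ph hz0).continuousAt.continuousWithinAt
  have dint : ∀ x y : ℝ, IntervalIntegrable (fun r : ℝ => ei (ω * r ^ 2 / 2))
      MeasureTheory.volume x y := fun x y => (cont_E_int ω).intervalIntegrable _ _
  -- the error functional
  set D : ℝ → ℝ → ℂ := fun x y => (∫ v in x..y, ei (ω * ph v)) -
    ei (-ω) * ∫ r in (sv x)..(sv y), ei (ω * r ^ 2 / 2) with hD
  have hadd : ∀ x y z : ℝ, 0 < x → 0 < y → 0 < z → D x z = D x y + D y z := by
    intro x y z hx hy hz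
    simp only [hD]
    rw [← intervalIntegral.integral_add_adjacent_intervals (cint x y hx hy) (cint y z hy hz),
      ← intervalIntegral.integral_add_adjacent_intervals (dint (sv x) (sv y)) (dint (sv y) (sv z))]
    ring
  have htriv : ∀ x y : ℝ, 0 < x → 0 < y → ‖D x y‖ ≤ |y - x| + |sv y - sv x| := by
    intro x y hx hy
    simp only [hD]
    refine (norm_sub_le _ _).trans ?_
    apply add_le_add
    · have := intervalIntegral.norm_integral_le_of_norm_le_const (a := x) (b := y) (C := 1)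
        (f := fun v => ei (ω * ph v)) (fun v _ => (norm_ei _).le)
      simpa using this
    · rw [norm_mul, norm_ei, one_mul]
      have := intervalIntegral.norm_integral_le_of_norm_le_const (a := sv x) (b := sv y) (C := 1)
        (f := fun r : ℝ => ei (ω * r ^ 2 / 2)) (fun v _ => (norm_ei _).le)
      simpa using this
  change ‖D a b‖ ≤ 4 / ω
  -- left part `[a, x]`, `x ≤ 1`
  have hleft : ∀ x y : ℝ, 0 < x → x ≤ y → y ≤ 1 → ‖D x y‖ ≤ 2 / ω := by
    intro x y hx hxy hy
    rcases lt_or_eq_of_le hy with h | h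
    · exact piece hω hx hxy (Or.inl h)
    · subst h
      apply le_of_forall_pos_le_add
      intro ε hε
      -- δ
      rcases lt_or_eq_of_le hxy with hx1 | hx1
      · obtain ⟨δ, hδ0, hδ1, hδ2⟩ : ∃ δ : ℝ, 0 < δ ∧ δ ≤ 1 - x ∧ 3 * δ ≤ ε := by
          refine ⟨min (1 - x) (ε / 3), lt_min (by linarith) (by linarith), min_le_left _ _, ?_⟩
          have := min_le_right (1 - x) (ε / 3)
          linarith
        rw [hadd x (1 - δ) 1 hx (by linarith) one_pos]
        have p1 : ‖D x (1 - δ)‖ ≤ 2 / ω := piece hω hx (by linarith) (Or.inl (by linarith))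
        have p2 := htriv (1 - δ) 1 (by linarith) one_pos
        have p3 := abs_sv_le (v := 1 - δ) (by linarith)
        rw [sv_one, zero_sub, abs_neg] at p2
        have p4 : |1 - δ - 1| = δ := by
          rw [show 1 - δ - 1 = -δ by ring, abs_neg, abs_of_pos hδ0]
        have p5 : |1 - (1 - δ)| = δ := by
          rw [show 1 - (1 - δ) = δ by ring, abs_of_pos hδ0]
        rw [p4] at p3
        rw [p5] at p2
        refine (norm_add_le _ _).trans ?_
        linarith
      · subst hx1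
        have := htriv 1 1 one_pos one_pos
        simp at this
        rw [this]
        simp
        linarith
  have hright : ∀ x y : ℝ, 1 ≤ x → x ≤ y → ‖D x y‖ ≤ 2 / ω := by
    intro x y hx hxy
    rcases lt_or_eq_of_le hx with h | h
    · exact piece hω (by linarith) hxy (Or.inr h)
    · subst h
      apply le_of_forall_pos_le_add
      intro ε hε
      rcases lt_or_eq_of_le hxy with hx1 | hx1
      · obtain ⟨δ, hδ0, hδ1, hδ2⟩ : ∃ δ : ℝ, 0 < δ ∧ δ ≤ y - 1 ∧ 3 * δ ≤ ε := by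
          refine ⟨min (y - 1) (ε / 3), lt_min (by linarith) (by linarith), min_le_left _ _, ?_⟩
          have := min_le_right (y - 1) (ε / 3)
          linarith
        rw [hadd 1 (1 + δ) y one_pos (by linarith) (by linarith)]
        have p1 : ‖D (1 + δ) y‖ ≤ 2 / ω :=
          piece hω (by linarith) (by linarith) (Or.inr (by linarith))
        have p2 := htriv 1 (1 + δ) one_pos (by linarith)
        have p3 := abs_sv_le (v := 1 + δ) (by linarith)
        rw [sv_one, sub_zero] at p2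
        have p4 : |1 + δ - 1| = δ := by
          rw [show 1 + δ - 1 = δ by ring, abs_of_pos hδ0]
        rw [p4] at p2 p3
        refine (norm_add_le _ _).trans ?_
        linarith
      · subst hx1
        have := htriv 1 1 one_pos one_pos
        simp at this
        rw [this]
        simp
        linarith
  rcases le_or_gt b 1 with hb | hb
  · exact (hleft a b ha hab hb).trans h24
  · rcases le_or_gt 1 a with ha1 | ha1
    · exact (hright a b ha1 hab).trans h24
    · rw [hadd a 1 b ha one_pos (by linarith)]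
      have q1 := hleft a 1 ha ha1.le le_rfl
      have q2 := hright 1 b le_rfl hb.le
      refine (norm_add_le _ _).trans ?_
      linarith

/-- monotonicity of `s`. -/
lemma sv_mono {a b : ℝ} (ha : 0 < a) (hab : a ≤ b) : sv a ≤ sv b := by
  rcases eq_or_lt_of_le hab with h | h
  · rw [h]
  have hb : 0 < b := by linarith
  rcases le_or_gt b 1 with hb1 | hb1
  · -- both `≤ 1`
    have hm : AntitoneOn q (Set.Ioc 0 1) := by
      apply antitoneOn_of_deriv_nonpos (convex_Ioc 0 1)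
      · exact fun x hx => (hasDerivAt_q hx.1).continuousAt.continuousWithinAt
      · intro x hx
        rw [interior_Ioc] at hx
        exact (hasDerivAt_q hx.1).differentiableAt.differentiableWithinAt
      · intro x hx
        rw [interior_Ioc] at hx
        rw [(hasDerivAt_q hx.1).deriv]
        have := Real.log_nonpos hx.1.le hx.2.le
        linarith
    have := hm ⟨ha, by linarith⟩ ⟨hb, hb1⟩ hab
    unfold sv
    rw [if_pos (by linarith), if_pos hb1]
    have := Real.sqrt_le_sqrt this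
    linarith
  · rcases le_or_gt a 1 with ha1 | ha1
    · have h1 := (sv_pos hb1).le
      have h2 : sv a ≤ 0 := by
        unfold sv
        rw [if_pos ha1]
        have := Real.sqrt_nonneg (q a)
        linarith
      linarith
    · have hm : MonotoneOn q (Set.Ici 1) := by
        apply monotoneOn_of_deriv_nonneg (convex_Ici 1)
        · intro x hx
          have hx' : 1 ≤ x := hx
          exact (hasDerivAt_q (by linarith)).continuousAt.continuousWithinAt
        · intro x hx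
          rw [interior_Ici] at hx
          have hx' : 1 < x := hx
          exact (hasDerivAt_q (by linarith)).differentiableAt.differentiableWithinAt
        · intro x hx
          rw [interior_Ici] at hx
          have hx' : 1 < x := hx
          rw [(hasDerivAt_q (by linarith)).deriv]
          have := Real.log_nonneg hx'.le
          linarith
      have := hm (Set.mem_Ici.2 ha1.le) (Set.mem_Ici.2 hb1.le) hab
      unfold sv
      rw [if_neg (not_le.2 ha1), if_neg (not_le.2 hb1)]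
      exact Real.sqrt_le_sqrt this

/-- the endpoint errors -/
lemma endpoint {ξ v : ℝ} (hξ : 0 < ξ) (hv : 0 < v) :
    2 * Real.pi * ξ ^ 2 * mn (1 / Real.sqrt (ξ ^ 2 / 2)) (ξ ^ 2 / 2 * sv v - 0) ≤
      30 * (1 + mn ξ (Real.log v / 2)) := by
  have hsq : Real.sqrt (ξ ^ 2 / 2) = ξ / Real.sqrt 2 := by
    rw [Real.sqrt_div (sq_nonneg ξ), Real.sqrt_sq hξ.le]
  have h2 : Real.sqrt 2 * Real.sqrt 2 = 2 := Real.mul_self_sqrt (by norm_num)
  have h2p : 0 < Real.sqrt 2 := by positivity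
  have h2lt : Real.sqrt 2 < 3 / 2 := by
    rw [Real.sqrt_lt' (by norm_num)]; norm_num
  have hpi := Real.pi_lt_d2
  have hpi0 := Real.pi_pos
  have e1 : 2 * Real.pi * ξ ^ 2 * mn (1 / Real.sqrt (ξ ^ 2 / 2)) (ξ ^ 2 / 2 * sv v - 0) =
      2 * Real.sqrt 2 * Real.pi * (ξ / (1 + ξ * |sv v| / Real.sqrt 2)) := by
    unfold mn
    rw [hsq, sub_zero, abs_mul, abs_of_pos (by positivity : 0 < ξ ^ 2 / 2)]
    have : 1 / (ξ / Real.sqrt 2) * (ξ ^ 2 / 2 * |sv v|) = ξ * |sv v| / Real.sqrt 2 := by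
      rw [div_mul_eq_mul_div, one_mul, div_div_eq_mul_div, div_eq_div_iff hξ.ne' h2p.ne']
      ring_nf
      rw [show Real.sqrt 2 ^ 2 = 2 by rw [sq, h2]]
      ring
    rw [this]
    field_simp
  rw [e1]
  have hmn0 : 0 ≤ mn ξ (Real.log v / 2) := by unfold mn; positivity
  have c1 : 2 * Real.sqrt 2 * Real.pi ≤ 10 := by nlinarith
  have hden : 0 < 1 + ξ * |sv v| / Real.sqrt 2 := by positivity
  have hq0 : 0 ≤ ξ / (1 + ξ * |sv v| / Real.sqrt 2) := by positivity
  have key : ξ / (1 + ξ * |sv v| / Real.sqrt 2) ≤ 3 * (1 + mn ξ (Real.log v / 2)) := by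
    rcases le_or_gt (1 / 2) v with hv2 | hv2
    · -- `|s| ≥ |w| / √2`
      have k1 : |Real.log v| / Real.sqrt 2 ≤ |sv v| := by
        rw [abs_sv, q_eq_K hv]
        apply Real.le_sqrt_of_sq_le
        rw [div_pow, sq_abs, Real.sq_sqrt (by norm_num)]
        have k2 := K_ge (Real.log v)
        have k3 : (1 : ℝ) / 2 ≤ Real.exp (2 * Real.log v / 3) := by
          have : Real.log (1 / 2) ≤ Real.log v := Real.log_le_log (by norm_num) hv2
          have l2 : Real.log (1 / 2) = -Real.log 2 := by rw [one_div, Real.log_inv]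
          have l3 := Real.log_pos (show (1 : ℝ) < 2 by norm_num)
          calc (1 : ℝ) / 2 = Real.exp (Real.log (1 / 2)) := by rw [Real.exp_log (by norm_num)]
            _ ≤ Real.exp (2 * Real.log v / 3) := by
                apply Real.exp_le_exp.2
                linarith
        nlinarith [sq_nonneg (Real.log v)]
      have k4 : ξ / (1 + ξ * |sv v| / Real.sqrt 2) ≤ mn ξ (Real.log v / 2) := by
        unfold mn
        apply div_le_div_of_nonneg_left hξ.le (by positivity)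
        have : ξ * |Real.log v / 2| ≤ ξ * |sv v| / Real.sqrt 2 := by
          rw [abs_div, abs_of_pos (show (0 : ℝ) < 2 by norm_num), mul_div_assoc]
          apply mul_le_mul_of_nonneg_left _ hξ.le
          rw [div_le_div_iff₀ (by norm_num) h2p]
          rw [div_le_iff₀ h2p] at k1
          have k5 := mul_le_mul_of_nonneg_right k1 h2p.le
          rw [mul_assoc, h2] at k5
          linarith
        linarith
      linarith
    · -- `|s| ≥ 1/2`
      have k1 : (1 : ℝ) / 2 ≤ |sv v| := by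
        have m1 := sv_mono hv hv2.le
        have m2 : sv (1 / 2) ≤ -(1 / 2) := by
          unfold sv
          rw [if_pos (by norm_num)]
          have : (1 : ℝ) / 2 ≤ Real.sqrt (q (1 / 2)) := by
            apply Real.le_sqrt_of_sq_le
            unfold q
            have l2 : Real.log (1 / 2) = -Real.log 2 := by rw [one_div, Real.log_inv]
            have l3 := Real.log_two_lt_d9
            rw [l2]
            linarith
          linarith
        have : sv v ≤ -(1 / 2) := m1.trans m2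
        rw [abs_of_nonpos (by linarith)]
        linarith
      have k2 : ξ / (1 + ξ * |sv v| / Real.sqrt 2) ≤ 3 := by
        rw [div_le_iff₀ hden]
        have : ξ / 3 ≤ ξ * |sv v| / Real.sqrt 2 := by
          rw [mul_div_assoc, div_eq_mul_one_div]
          apply mul_le_mul_of_nonneg_left _ hξ.le
          rw [div_le_div_iff₀ (by norm_num) h2p]
          linarith
        linarith
      linarith
  calc 2 * Real.sqrt 2 * Real.pi * (ξ / (1 + ξ * |sv v| / Real.sqrt 2))
      ≤ 10 * (ξ / (1 + ξ * |sv v| / Real.sqrt 2)) := mul_le_mul_of_nonneg_right c1 hq0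
    _ ≤ 10 * (3 * (1 + mn ξ (Real.log v / 2))) := by linarith
    _ = 30 * (1 + mn ξ (Real.log v / 2)) := by ring

end SP

open SP in
/-- **Module SP.** -/
theorem sp (h : TFres) : TSP := by
  obtain ⟨C, hC, hF⟩ := h
  refine ⟨8 + 60 * C, by positivity, ?_⟩
  intro ξ t₁ t₂ hξ ht₁ ht
  have hpi := Real.pi_pos
  have hξ2 : 0 < 2 * Real.pi * ξ ^ 2 := by positivity
  have ht₂ : 0 < t₂ := by linarith
  set ω : ℝ := Real.pi * ξ ^ 2 with hωd
  have hω : 0 < ω := by positivity
  set v₁ : ℝ := t₁ / (2 * Real.pi * ξ ^ 2) with hv₁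
  set v₂ : ℝ := t₂ / (2 * Real.pi * ξ ^ 2) with hv₂
  have hv₁0 : 0 < v₁ := by positivity
  have hv₂0 : 0 < v₂ := by positivity
  have hv12 : v₁ ≤ v₂ := div_le_div_of_nonneg_right ht hξ2.le
  -- the logarithms
  have hlog : ∀ t : ℝ, 0 < t → Real.log (Real.sqrt (t / (2 * Real.pi)) / ξ) =
      Real.log (t / (2 * Real.pi * ξ ^ 2)) / 2 := by
    intro t ht
    have : Real.sqrt (t / (2 * Real.pi)) / ξ = Real.sqrt (t / (2 * Real.pi * ξ ^ 2)) := by
      rw [show t / (2 * Real.pi * ξ ^ 2) = t / (2 * Real.pi) / ξ ^ 2 by rw [div_div],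
        Real.sqrt_div (by positivity : 0 ≤ t / (2 * Real.pi)) (ξ ^ 2), Real.sqrt_sq hξ.le]
    rw [this, Real.log_sqrt (by positivity)]
  rw [hlog t₁ ht₁, hlog t₂ ht₂]
  -- change of variables
  have hcv : (∫ t in t₁..t₂, ei (th0 t - t * Real.log ξ)) =
      ((2 * Real.pi * ξ ^ 2 : ℝ) : ℂ) * (ei (-(Real.pi / 8)) * ∫ v in v₁..v₂, ei (ω * ph v)) := by
    have h1 := intervalIntegral.smul_integral_comp_mul_left
      (f := fun t => ei (th0 t - t * Real.log ξ)) (a := v₁) (b := v₂) (2 * Real.pi * ξ ^ 2)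
    have e1 : 2 * Real.pi * ξ ^ 2 * v₁ = t₁ := by rw [hv₁]; field_simp
    have e2 : 2 * Real.pi * ξ ^ 2 * v₂ = t₂ := by rw [hv₂]; field_simp
    rw [e1, e2] at h1
    rw [← h1, Complex.real_smul,
      ← intervalIntegral.integral_const_mul (ei (-(Real.pi / 8))) (fun v => ei (ω * ph v))]
    congr 1
    apply intervalIntegral.integral_congr
    intro v hv
    have hv0 : 0 < v := by
      rw [Set.uIcc_of_le hv12] at hv
      linarith [hv.1]
    simp only
    rw [← ei_add]
    congr 1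
    unfold th0 ph
    have e3 : 2 * Real.pi * ξ ^ 2 * v / (2 * Real.pi) = ξ ^ 2 * v := by field_simp
    rw [e3, Real.log_mul (by positivity) hv0.ne', Real.log_pow, hωd]
    push_cast
    ring
  -- Fresnel
  have hFr := hF (ξ ^ 2 / 2) 0 (sv v₁) (sv v₂) (by positivity) (sv_mono hv₁0 hv12)
  have hint : (∫ y in (sv v₁)..(sv v₂), ee (ξ ^ 2 / 2 * y ^ 2 / 2 - 0 * y)) =
      ∫ r in (sv v₁)..(sv v₂), ei (ω * r ^ 2 / 2) := by
    apply intervalIntegral.integral_congr
    intro r _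
    simp only
    unfold ee
    congr 1
    rw [hωd]
    ring
  rw [hint] at hFr
  have hcond : (sv v₁ ≤ 0 / (ξ ^ 2 / 2) ∧ 0 / (ξ ^ 2 / 2) ≤ sv v₂) ↔
      (t₁ ≤ 2 * Real.pi * ξ ^ 2 ∧ 2 * Real.pi * ξ ^ 2 ≤ t₂) := by
    rw [zero_div]
    have c1 : sv v₁ ≤ 0 ↔ t₁ ≤ 2 * Real.pi * ξ ^ 2 := by
      rw [show t₁ ≤ 2 * Real.pi * ξ ^ 2 ↔ v₁ ≤ 1 by rw [hv₁, div_le_one hξ2]]
      constructor
      · intro h
        by_contra h'
        have := sv_pos (not_le.1 h')
        linarith
      · intro h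
        unfold sv
        rw [if_pos h]
        have := Real.sqrt_nonneg (q v₁)
        linarith
    have c2 : 0 ≤ sv v₂ ↔ 2 * Real.pi * ξ ^ 2 ≤ t₂ := by
      rw [show 2 * Real.pi * ξ ^ 2 ≤ t₂ ↔ 1 ≤ v₂ by rw [hv₂, one_le_div hξ2]]
      constructor
      · intro h
        by_contra h'
        have := sv_neg hv₂0 (not_le.1 h')
        linarith
      · intro h
        rcases eq_or_lt_of_le h with h' | h'
        · rw [← h', sv_one]
        · exact (sv_pos h').le
    rw [c1, c2]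
  rw [if_congr hcond rfl rfl] at hFr
  set J : ℂ := ∫ r in (sv v₁)..(sv v₂), ei (ω * r ^ 2 / 2) with hJ
  set M : ℂ := (if t₁ ≤ 2 * Real.pi * ξ ^ 2 ∧ 2 * Real.pi * ξ ^ 2 ≤ t₂ then
    ((1 / Real.sqrt (ξ ^ 2 / 2) : ℝ) : ℂ) * ee (1 / 8 - 0 ^ 2 / (2 * (ξ ^ 2 / 2))) else 0) with hM
  -- the main term
  have hmain : (if t₁ ≤ 2 * Real.pi * ξ ^ 2 ∧ 2 * Real.pi * ξ ^ 2 ≤ t₂ then
      ((2 * Real.sqrt 2 * Real.pi * ξ : ℝ) : ℂ) * ee (1 / 16 - ξ ^ 2 / 2) else 0) =
      ((2 * Real.pi * ξ ^ 2 : ℝ) : ℂ) * (ei (-(Real.pi / 8)) * (ei (-ω) * M)) := by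
    rw [hM]
    split_ifs
    · have hsq : Real.sqrt (ξ ^ 2 / 2) = ξ / Real.sqrt 2 := by
        rw [Real.sqrt_div (sq_nonneg ξ), Real.sqrt_sq hξ.le]
      have a1 : ei (-(Real.pi / 8)) * (ei (-ω) * ee (1 / 8 - 0 ^ 2 / (2 * (ξ ^ 2 / 2)))) =
          ee (1 / 16 - ξ ^ 2 / 2) := by
        unfold ee
        rw [← ei_add, ← ei_add]
        congr 1
        rw [hωd]
        ring
      have a2 : ((2 * Real.sqrt 2 * Real.pi * ξ : ℝ) : ℂ) =
          ((2 * Real.pi * ξ ^ 2 : ℝ) : ℂ) * ((1 / Real.sqrt (ξ ^ 2 / 2) : ℝ) : ℂ) := by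
        rw [← Complex.ofReal_mul]
        congr 1
        rw [hsq]
        field_simp
      rw [← a1, a2]
      ring
    · simp
  rw [hcv, hmain]
  have hdec : ((2 * Real.pi * ξ ^ 2 : ℝ) : ℂ) * (ei (-(Real.pi / 8)) *
        ∫ v in v₁..v₂, ei (ω * ph v)) -
      ((2 * Real.pi * ξ ^ 2 : ℝ) : ℂ) * (ei (-(Real.pi / 8)) * (ei (-ω) * M)) =
      ((2 * Real.pi * ξ ^ 2 : ℝ) : ℂ) * (ei (-(Real.pi / 8)) *
        (((∫ v in v₁..v₂, ei (ω * ph v)) - ei (-ω) * J) + ei (-ω) * (J - M))) := by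
    ring
  rw [hdec, norm_mul, norm_mul, norm_ei, one_mul, Complex.norm_real,
    Real.norm_of_nonneg hξ2.le]
  have n1 := piece_all hω hv₁0 hv12
  have n2 : ‖ei (-ω) * (J - M)‖ ≤ C * (mn (1 / Real.sqrt (ξ ^ 2 / 2)) (ξ ^ 2 / 2 * sv v₁ - 0) +
      mn (1 / Real.sqrt (ξ ^ 2 / 2)) (ξ ^ 2 / 2 * sv v₂ - 0)) := by
    rw [norm_mul, norm_ei, one_mul]
    exact hFr
  have n3 := norm_add_le ((∫ v in v₁..v₂, ei (ω * ph v)) - ei (-ω) * J) (ei (-ω) * (J - M))
  have ep1 := endpoint hξ hv₁0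
  have ep2 := endpoint hξ hv₂0
  have m1 : 0 ≤ mn ξ (Real.log v₁ / 2) := by unfold mn; positivity
  have m2 : 0 ≤ mn ξ (Real.log v₂ / 2) := by unfold mn; positivity
  have e4 : 2 * Real.pi * ξ ^ 2 * (4 / ω) = 8 := by rw [hωd]; field_simp; ring
  calc 2 * Real.pi * ξ ^ 2 * ‖((∫ v in v₁..v₂, ei (ω * ph v)) - ei (-ω) * J) +
        ei (-ω) * (J - M)‖
      ≤ 2 * Real.pi * ξ ^ 2 * (4 / ω + C * (mn (1 / Real.sqrt (ξ ^ 2 / 2))
        (ξ ^ 2 / 2 * sv v₁ - 0) +
        mn (1 / Real.sqrt (ξ ^ 2 / 2)) (ξ ^ 2 / 2 * sv v₂ - 0))) := by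
          apply mul_le_mul_of_nonneg_left _ hξ2.le
          linarith
    _ = 8 + C * (2 * Real.pi * ξ ^ 2 * mn (1 / Real.sqrt (ξ ^ 2 / 2)) (ξ ^ 2 / 2 * sv v₁ - 0) +
        2 * Real.pi * ξ ^ 2 * mn (1 / Real.sqrt (ξ ^ 2 / 2)) (ξ ^ 2 / 2 * sv v₂ - 0)) := by
          rw [mul_add, e4]; ring
    _ ≤ 8 + C * (30 * (1 + mn ξ (Real.log v₁ / 2)) + 30 * (1 + mn ξ (Real.log v₂ / 2))) := by
          have := mul_le_mul_of_nonneg_left (add_le_add ep1 ep2) hC.le
          linarith
    _ ≤ (8 + 60 * C) * (1 + mn ξ (Real.log v₁ / 2) + mn ξ (Real.log v₂ / 2)) := by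
          nlinarith [mul_nonneg hC.le m1, mul_nonneg hC.le m2]

end Pool.Agent.H7.Cubic
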